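import Pool.Agent.Q192.PK.ManE
import Pool.Agent.H147R2.RI.JF

/-!
# MP_5c499f_an: bounded distortion at the periodic points, without a recurrence assumption
-/

set_option autoImplicit false

open scoped Manifold ContDiff Topology Bundle
open Set Filter Bundle

namespace Pool.Agent.Results.MP_5c499f_an.BoundedDistortionInfraToral

open Pool.Agent.H721R2 Pool.Agent.H789R2.AN Pool.Agent.H779R2.An Pool.Agent.H779R2.To
  Pool.Agent.H779R2.Nu Pool.Agent.H147R2.RI Pool.Agent.H576R3.CF Pool.Agent.Y321.PD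
  Pool.Agent.Q192.PI.B Pool.Agent.Q192.PK

/-- Uniform quasiconformality gives subexponential distortion. -/
theorem sub_of_qc {E : Type*} [NormedAddCommGroup E] [NormedSpace ℝ E] [FiniteDimensional ℝ E]
    {M : Type*} [TopologicalSpace M] [ChartedSpace E M] [IsManifold 𝓘(ℝ, E) ∞ M]
    (f : M → M) (N : TangentBundle 𝓘(ℝ, E) M → ℝ) (hN : IsTangentNorm N)
    (V : ∀ x : M, Submodule ℝ (TangentSpace 𝓘(ℝ, E) x)) (h : UniformlyQC f N V) :
    SubexpDistortion f N V := by
  obtain ⟨K, hK⟩ := h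
  have h0 : ∀ q : TangentBundle 𝓘(ℝ, E) M, 0 ≤ N q := by
    rintro ⟨x, v⟩
    by_cases hv : v = 0
    · have h1 := hN.smul x 0 v
      rw [abs_zero, zero_mul] at h1
      subst hv
      rw [smul_zero] at h1
      exact h1.ge
    · exact (hN.pos x v hv).le
  intro κ hκ
  refine ⟨|K|, fun n x v hv w hw => (hK n x v hv w hw).trans ?_⟩
  have h2 : 0 ≤ N (tangentMap 𝓘(ℝ, E) 𝓘(ℝ, E) (f^[n]) ⟨x, w⟩) * N ⟨x, v⟩ :=
    mul_nonneg (h0 _) (h0 _)
  refine mul_le_mul_of_nonneg_right ?_ h2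
  calc K ≤ |K| := le_abs_self K
    _ ≤ |K| * κ ^ n := le_mul_of_one_le_right (abs_nonneg K) (one_le_pow₀ hκ.le)

/-- **Anosov diffeomorphisms whose return maps have bounded distortion on one bundle are
infra-toral, without any recurrence assumption.**
Let `f` be a `C²` Anosov diffeomorphism of a closed connected smooth manifold `M`, with splitting
`TM = Es ⊕ Eu` of ranks `ds, du ≥ 2`.  Suppose that the return maps `D(fᵏ)(p)`, `fᵏ(p) = p`, have
uniformly bounded distortion on ONE of the two bundles `V` (`PerDist`): for some constant `K`,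
`‖D(fᵏ) v‖ / ‖v‖ ≤ K ‖D(fᵏ) w‖ / ‖w‖` for all `k ≥ 1`, all `p` with `fᵏ(p) = p` and all
`v, w ∈ V p`.  (This holds for instance if `f` is uniformly quasiconformal on `V`.)  Nothing is
assumed on the other bundle, and it is not assumed that `f` is topologically transitive, that its
points are nonwandering, or anything on its Jacobians.

Then `f` is topologically conjugate to a hyperbolic infra-toral automorphism, in particular
finitely covered by a hyperbolic toral automorphism: there are a matrix `A` in `GL(m, ℤ)` without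
eigenvalues of modulus one and a covering map `P : ℝᵐ → M` with `f ∘ P = P ∘ A`, such that `P` is
`ℤᵐ`-periodic, every fibre of `P` is a finite union of `ℤᵐ`-orbits, and the deck transformations
of `P` (which are transitive on the fibres) are affine maps `x ↦ B x + c` with `B ∈ GL(m, ℤ)`. -/
theorem result (E : Type*) [NormedAddCommGroup E] [NormedSpace ℝ E] [FiniteDimensional ℝ E]
    (M : Type*) [TopologicalSpace M] [T2Space M] [CompactSpace M] [ConnectedSpace M]
    [ChartedSpace E M] [IsManifold 𝓘(ℝ, E) ∞ M] (f : Diffeomorph 𝓘(ℝ, E) 𝓘(ℝ, E) M M 1)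
    (hf2 : ContMDiff 𝓘(ℝ, E) 𝓘(ℝ, E) 2 f) (hf2' : ContMDiff 𝓘(ℝ, E) 𝓘(ℝ, E) 2 f.symm)
    (Es Eu : ∀ x : M, Submodule ℝ (TangentSpace 𝓘(ℝ, E) x)) (hA : IsAnosov f Es Eu)
    (N : TangentBundle 𝓘(ℝ, E) M → ℝ) (hN : IsTangentNorm N)
    (ds du : ℕ) (h2s : 2 ≤ ds) (h2u : 2 ≤ du) (hds : ∀ x, Module.finrank ℝ (Es x) = ds)
    (hdu : ∀ x, Module.finrank ℝ (Eu x) = du) (hD : PerDist f N Eu ∨ PerDist f N Es) :
    ∃ (m : ℕ) (A : Matrix (Fin m) (Fin m) ℤ) (P : (Fin m → ℝ) → M),
      IsUnit A.det ∧ HypMat A ∧ IsCoveringMap P ∧ Function.Surjective P ∧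
      (∀ x, f (P x) = P ((A.map (Int.cast : ℤ → ℝ)).mulVec x)) ∧
      (∀ (x : Fin m → ℝ) (z : Fin m → ℤ), P (x + fun i => (z i : ℝ)) = P x) ∧
      (∀ a, ∃ S : Finset (Fin m → ℝ), ∀ x, P x = a → ∃ s ∈ S, ∃ z : Fin m → ℤ,
        x = s + fun i => (z i : ℝ)) ∧
      ∀ x y, P x = P y → ∃ (B : Matrix (Fin m) (Fin m) ℤ) (c : Fin m → ℝ), IsUnit B.det ∧
        y = (B.map (Int.cast : ℤ → ℝ)).mulVec x + c ∧
        ∀ w, P ((B.map (Int.cast : ℤ → ℝ)).mulVec w + c) = P w := by
  obtain ⟨c1, c2⟩ := Pool.Agent.Q130.AN.main_crit E M f hf2 hf2' Es Eu hA N hN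
  have htr : TopTransitive f := by
    rcases hD with h | h
    · exact (man_all f Es Eu hA N hN (Or.inl ⟨fun x => h2u.trans (hdu x).ge,
        Or.inl (sub_of_qc f N hN Eu (c1 h))⟩)).1
    · exact (man_all f Es Eu hA N hN (Or.inr (Or.inl ⟨fun x => h2s.trans (hds x).ge,
        Or.inl (sub_of_qc f N hN Es (c2 h))⟩))).1
  obtain ⟨m, A, P, h1, h2, h3, h4, h5, h6, h7⟩ :=
    (Pool.Agent.Q130.AN.main_class E M f hf2 hf2' Es Eu hA N hN ds du h2s h2u hds hdu hD htr).1
  exact ⟨m, A, P, h1, h2, h3, h4, h5, h6, fib_fin P h3 h6, h7⟩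

end Pool.Agent.Results.MP_5c499f_an.BoundedDistortionInfraToral
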